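import Pool.Agent.H41.Pl2

set_option autoImplicit false
open Pool.Agent.H41.Pl

theorem Pool.Agent.Results.MP_4fc6a2_gt.No.result (H : AddSubgroup ℝ) (hd : Dense (H : Set ℝ))
    (ha : MeasureTheory.AnalyticSet (H : Set ℝ)) : ¬ Plastic H :=
  not_plastic H hd ha
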